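import Pool.Agent.Lib_helper23.AAM.Every
import Pool.Agent.Lib_helper25.K4R.Hit

/-!
# The four bin property gives removal of few pairs and of few differences
-/

set_option autoImplicit false

namespace Pool.Agent.AAM

open Finset Pool.Agent.Lib_helper23.PG Pool.Agent.Lib_helper23.ES

/-- the four bin property gives removal of few pairs -/
theorem pairRemoval_of_bins {k : ℕ} (hk : 0 < k) {D : Set ℕ} (hD : HitsBins 4 k D) :
    PairRemoval D := by
  classical
  intro e he
  obtain ⟨N, hN⟩ := Pool.Agent.Lib_helper25.K4R.hit hk hD (G := fun z : ℤ => ∃ d ∈ D, (d : ℤ) = z)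
    (fun d hd => ⟨d, hd, rfl⟩) e he
  refine ⟨N, fun A hA hpar hmod => ?_⟩
  obtain ⟨p, hp⟩ := hpar
  obtain ⟨r, hr, hmis⟩ := hmod
  set B : Finset ℤ := A.image (fun a : ℕ => (a : ℤ)) with hB
  have hcard : #B = #A := Finset.card_image_of_injective _ Nat.cast_injective
  have hmemB : ∀ a ∈ A, (a : ℤ) ∈ B := fun a ha => Finset.mem_image_of_mem _ ha
  obtain ⟨F, hF1, hF2⟩ := hN B (by rw [hcard]; exact hA) (by
    intro a ha b hb
    obtain ⟨a', ha', rfl⟩ := Finset.mem_image.1 ha
    obtain ⟨b', hb', rfl⟩ := Finset.mem_image.1 hb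
    have h1 := hp a' ha'
    have h2 := hp b' hb'
    rw [Int.even_iff]
    omega) ⟨(r : ℤ), by
    intro a ha
    obtain ⟨a', ha', rfl⟩ := Finset.mem_image.1 ha
    have h1 := hmis a' ha'
    intro h2
    omega⟩
  refine ⟨F.image fun q => (q.1.toNat, q.2.toNat), ?_, ?_⟩
  · have h1 : (#(F.image fun q => (q.1.toNat, q.2.toNat)) : ℝ) ≤ #F := by
      exact_mod_cast Finset.card_image_le
    rw [hcard] at hF1
    exact h1.trans hF1
  · intro a ha b hb c hc d hd hab hbc hcd hno
    obtain ⟨n1, n2, n3, n4, n5, n6⟩ := hno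
    have key : ∀ u v : ℕ, u < v → v - u ∉ D →
        NG (fun z : ℤ => ∃ d ∈ D, (d : ℤ) = z) (u : ℤ) (v : ℤ) ∧
        NG (fun z : ℤ => ∃ d ∈ D, (d : ℤ) = z) (v : ℤ) (u : ℤ) := by
      intro u v huv hD'
      have g1 : ¬ ∃ d ∈ D, (d : ℤ) = (v : ℤ) - u := by
        rintro ⟨z, hz, hz2⟩
        have : z = v - u := by omega
        rw [this] at hz
        exact hD' hz
      have g2 : ¬ ∃ d ∈ D, (d : ℤ) = (u : ℤ) - v := by
        rintro ⟨z, hz, hz2⟩
        omega
      exact ⟨⟨by omega, g1, g2⟩, ⟨by omega, g2, g1⟩⟩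
    have k1 := key a b hab n1
    have k2 := key a c (hab.trans hbc) n2
    have k3 := key a d (hab.trans (hbc.trans hcd)) n3
    have k4 := key b c hbc n4
    have k5 := key b d (hbc.trans hcd) n5
    have k6 := key c d hcd n6
    obtain ⟨i, j, hij, hF⟩ := hF2 ![(a : ℤ), b, c, d] (by
      intro i
      fin_cases i
      · exact hmemB a ha
      · exact hmemB b hb
      · exact hmemB c hc
      · exact hmemB d hd) (by
      intro i j hij
      fin_cases i <;> fin_cases j <;>
        first
          | exact absurd rfl hij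
          | exact k1.1
          | exact k1.2
          | exact k2.1
          | exact k2.2
          | exact k3.1
          | exact k3.2
          | exact k4.1
          | exact k4.2
          | exact k5.1
          | exact k5.2
          | exact k6.1
          | exact k6.2)
    have hmem : ∀ u v : ℕ, ((u : ℤ), (v : ℤ)) ∈ F →
        (u, v) ∈ F.image fun q => (q.1.toNat, q.2.toNat) := by
      intro u v h
      exact Finset.mem_image.2 ⟨_, h, by simp⟩
    fin_cases i <;> fin_cases j <;> simp at hij
    · exact Or.inl (hmem a b hF)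
    · exact Or.inr (Or.inl (hmem a c hF))
    · exact Or.inr (Or.inr (Or.inl (hmem a d hF)))
    · exact Or.inr (Or.inr (Or.inr (Or.inl (hmem b c hF))))
    · exact Or.inr (Or.inr (Or.inr (Or.inr (Or.inl (hmem b d hF)))))
    · exact Or.inr (Or.inr (Or.inr (Or.inr (Or.inr (hmem c d hF)))))

/-- the four bin property gives removal of few differences in all sets of small doubling -/
theorem removalSD_of_bins {k : ℕ} (hk : 0 < k) {D : Set ℕ} (hD : HitsBins 4 k D) :
    RemovalSD D :=
  removalSD_of_pairs (pairRemoval_of_bins hk hD)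

/-- the four bin property gives removal of few differences in all unions of `m` intervals -/
theorem removal_of_bins {k : ℕ} (hk : 0 < k) {D : Set ℕ} (hD : HitsBins 4 k D) : Removal D :=
  removal_of_SD (removalSD_of_bins hk hD)

end Pool.Agent.AAM
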