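import Pool.Agent.Lib_helper42.AAM.Mult

/-!
# Removal of a few differences from removal of a few pairs

If few pairs meet every `4`-element set of `A` without a difference in `D`, for every large admissible
`A`, then few differences do, in every union of a bounded number of long intervals: average over the
translates by multiples of `6`.
-/

set_option autoImplicit false

namespace Pool.Agent.AAM

open Finset

/-- Removal of few pairs: in every large finite set `A` with all elements of one parity that misses a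
class modulo `3`, a small proportion `P` of the pairs meets every four elements without a difference in
`D`. -/
def PairRemoval (D : Set ℕ) : Prop :=
  ∀ e : ℝ, 0 < e → ∃ N : ℕ, ∀ A : Finset ℕ, N ≤ #A → (∃ p, ∀ a ∈ A, a % 2 = p) →
    (∃ r < 3, ∀ a ∈ A, a % 3 ≠ r) → ∃ P : Finset (ℕ × ℕ), (#P : ℝ) ≤ e * (#A : ℝ) ^ 2 ∧
      ∀ a ∈ A, ∀ b ∈ A, ∀ c ∈ A, ∀ d ∈ A, a < b → b < c → c < d →
        (b - a ∉ D ∧ c - a ∉ D ∧ d - a ∉ D ∧ c - b ∉ D ∧ d - b ∉ D ∧ d - c ∉ D) →
        (a, b) ∈ P ∨ (a, c) ∈ P ∨ (a, d) ∈ P ∨ (b, c) ∈ P ∨ (b, d) ∈ P ∨ (c, d) ∈ P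

/-- the differences of at least `n / 42` pairs of `P` -/
def popular (P : Finset (ℕ × ℕ)) (n : ℕ) : Finset ℕ :=
  (P.image fun q => q.2 - q.1).filter fun t => n ≤ 42 * #(P.filter fun q => q.2 - q.1 = t)

theorem card_popular (P : Finset (ℕ × ℕ)) (n : ℕ) : n * #(popular P n) ≤ 42 * #P := by
  have h1 : #P = ∑ t ∈ P.image (fun q => q.2 - q.1), #(P.filter fun q => q.2 - q.1 = t) :=
    Finset.card_eq_sum_card_image _ _
  have h2 : ∑ t ∈ popular P n, #(P.filter fun q => q.2 - q.1 = t) ≤ #P := by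
    rw [h1]
    exact Finset.sum_le_sum_of_subset (Finset.filter_subset _ _)
  calc n * #(popular P n) = ∑ t ∈ popular P n, n := by
        rw [Finset.sum_const, smul_eq_mul, mul_comm]
    _ ≤ ∑ t ∈ popular P n, 42 * #(P.filter fun q => q.2 - q.1 = t) :=
        Finset.sum_le_sum fun t ht => (Finset.mem_filter.1 ht).2
    _ = 42 * ∑ t ∈ popular P n, #(P.filter fun q => q.2 - q.1 = t) := by
        rw [Finset.mul_sum]
    _ ≤ 42 * #P := Nat.mul_le_mul_left _ h2

/-- few translates by multiples of `6` of a pair with an unpopular difference are in `P` -/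
theorem card_translates {P : Finset (ℕ × ℕ)} {n : ℕ} (hn : 0 < n) {u v : ℕ} (huv : u < v)
    (h : v - u ∉ popular P n) (k : ℕ) :
    42 * #((range k).filter fun s => (u + 6 * s, v + 6 * s) ∈ P) < n := by
  have h1 : #((range k).filter fun s => (u + 6 * s, v + 6 * s) ∈ P) ≤
      #(P.filter fun q => q.2 - q.1 = v - u) := by
    refine Finset.card_le_card_of_injOn (fun s => (u + 6 * s, v + 6 * s)) ?_ ?_
    · intro s hs
      have h2 := (Finset.mem_filter.1 (Finset.mem_coe.1 hs)).2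
      refine Finset.mem_coe.2 (Finset.mem_filter.2 ⟨h2, ?_⟩)
      show v + 6 * s - (u + 6 * s) = v - u
      omega
    · intro s _ s' _ hss
      have h3 : u + 6 * s = u + 6 * s' := congrArg Prod.fst hss
      omega
  by_cases h0 : v - u ∈ P.image fun q => q.2 - q.1
  · by_contra hcon
    push Not at hcon
    exact h (Finset.mem_filter.2 ⟨h0, hcon.trans (Nat.mul_le_mul_left _ h1)⟩)
  · have h4 : P.filter (fun q => q.2 - q.1 = v - u) = ∅ := by
      refine Finset.filter_eq_empty_iff.2 fun q hq hq2 => h0 ?_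
      exact Finset.mem_image.2 ⟨q, hq, hq2⟩
    rw [h4, Finset.card_empty] at h1
    have h5 : #((range k).filter fun s => (u + 6 * s, v + 6 * s) ∈ P) = 0 := Nat.le_zero.1 h1
    rw [h5]
    exact hn

/-- the elements of the padded intervals with a given parity that miss a given class modulo `3` -/
def host {m : ℕ} (x : Fin m → ℕ) (n p r : ℕ) : Finset ℕ :=
  (univ.biUnion fun i => Ico (x i) (x i + 2 * n)).filter fun a => a % 2 = p ∧ a % 3 ≠ r

theorem mem_host {m : ℕ} {x : Fin m → ℕ} {n p r a : ℕ} :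
    a ∈ host x n p r ↔ (∃ i, x i ≤ a ∧ a < x i + 2 * n) ∧ a % 2 = p ∧ a % 3 ≠ r := by
  unfold host
  rw [Finset.mem_filter, Finset.mem_biUnion]
  constructor
  · rintro ⟨⟨i, -, hi⟩, h⟩
    exact ⟨⟨i, Finset.mem_Ico.1 hi⟩, h⟩
  · rintro ⟨⟨i, hi⟩, h⟩
    exact ⟨⟨i, Finset.mem_univ _, Finset.mem_Ico.2 hi⟩, h⟩

theorem card_host_le {m : ℕ} (x : Fin m → ℕ) (n p r : ℕ) : #(host x n p r) ≤ m * (2 * n) := by
  refine (Finset.card_filter_le _ _).trans (Finset.card_biUnion_le.trans ?_)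
  refine (Finset.sum_le_sum (g := fun _ => 2 * n) fun i _ => ?_).trans ?_
  · rw [Nat.card_Ico]
    omega
  · rw [Finset.sum_const, Finset.card_univ, Fintype.card_fin, smul_eq_mul]

theorem le_card_host {m : ℕ} (x : Fin m → ℕ) {n p r N : ℕ} (hm : 0 < m) (hp : p < 2)
    (hn : 3 * N + 6 ≤ n) : N ≤ #(host x n p r) := by
  have h : #(range N) ≤ #(host x n p r) := by
    refine Finset.card_le_card_of_injOn
      (fun k => 6 * (x ⟨0, hm⟩ / 6 + 1 + k) + (3 * p + 4 * ((r + 1) % 3)) % 6) ?_ ?_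
    · intro k hk
      have hk2 := Finset.mem_range.1 (Finset.mem_coe.1 hk)
      refine Finset.mem_coe.2 (mem_host.2 ⟨⟨⟨0, hm⟩, ?_, ?_⟩, ?_, ?_⟩)
      · show x ⟨0, hm⟩ ≤ 6 * (x ⟨0, hm⟩ / 6 + 1 + k) + (3 * p + 4 * ((r + 1) % 3)) % 6
        omega
      · show 6 * (x ⟨0, hm⟩ / 6 + 1 + k) + (3 * p + 4 * ((r + 1) % 3)) % 6 < x ⟨0, hm⟩ + 2 * n
        omega
      · show (6 * (x ⟨0, hm⟩ / 6 + 1 + k) + (3 * p + 4 * ((r + 1) % 3)) % 6) % 2 = p
        omega
      · show (6 * (x ⟨0, hm⟩ / 6 + 1 + k) + (3 * p + 4 * ((r + 1) % 3)) % 6) % 3 ≠ r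
        omega
    · intro k _ k' _ hkk
      have h3 : 6 * (x ⟨0, hm⟩ / 6 + 1 + k) + (3 * p + 4 * ((r + 1) % 3)) % 6 =
        6 * (x ⟨0, hm⟩ / 6 + 1 + k') + (3 * p + 4 * ((r + 1) % 3)) % 6 := hkk
      omega
  rwa [Finset.card_range] at h

theorem removal_of_pairs {D : Set ℕ} (hD : PairRemoval D) : Removal D := by
  classical
  intro m e he
  rcases Nat.eq_zero_or_pos m with rfl | hm
  · refine ⟨0, fun n _ x => ⟨∅, by simp; positivity, fun a b c d _ _ _ h => ?_⟩⟩
    obtain ⟨i, -⟩ := h a (Or.inl rfl)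
    exact i.elim0
  have hmR : (0 : ℝ) < m := by exact_mod_cast hm
  obtain ⟨N, hN⟩ := hD (e / (1008 * (m : ℝ) ^ 2)) (by positivity)
  refine ⟨3 * N + 6, fun n hn x => ?_⟩
  have hn' : 3 * N + 6 ≤ n := hn
  have hn0 : 0 < n := by omega
  have hnR : (0 : ℝ) < n := by exact_mod_cast hn0
  have hP : ∀ p r : ℕ, ∃ P : Finset (ℕ × ℕ), p < 2 → r < 3 →
      (#P : ℝ) ≤ e / (1008 * (m : ℝ) ^ 2) * (#(host x n p r) : ℝ) ^ 2 ∧
      ∀ a ∈ host x n p r, ∀ b ∈ host x n p r, ∀ c ∈ host x n p r, ∀ d ∈ host x n p r,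
        a < b → b < c → c < d →
        (b - a ∉ D ∧ c - a ∉ D ∧ d - a ∉ D ∧ c - b ∉ D ∧ d - b ∉ D ∧ d - c ∉ D) →
        (a, b) ∈ P ∨ (a, c) ∈ P ∨ (a, d) ∈ P ∨ (b, c) ∈ P ∨ (b, d) ∈ P ∨ (c, d) ∈ P := by
    intro p r
    by_cases hpr : p < 2 ∧ r < 3
    · obtain ⟨P, hP1, hP2⟩ := hN (host x n p r) (le_card_host x hm hpr.1 hn')
        ⟨p, fun a ha => (mem_host.1 ha).2.1⟩ ⟨r, hpr.2, fun a ha => (mem_host.1 ha).2.2⟩
      exact ⟨P, fun _ _ => ⟨hP1, hP2⟩⟩
    · exact ⟨∅, fun h1 h2 => absurd ⟨h1, h2⟩ hpr⟩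
  choose P hP using hP
  refine ⟨(range 2).biUnion fun p => (range 3).biUnion fun r => popular (P p r) n, ?_, ?_⟩
  · have h1 : ∀ p < 2, ∀ r < 3, (#(popular (P p r) n) : ℝ) ≤ e / 6 * n := by
      intro p hp r hr
      have h2 : (n : ℝ) * #(popular (P p r) n) ≤ 42 * #(P p r) := by
        exact_mod_cast card_popular (P p r) n
      have h3 := (hP p r hp hr).1
      have h4 : (#(host x n p r) : ℝ) ≤ m * (2 * n) := by
        exact_mod_cast card_host_le x n p r
      have h5 : (#(host x n p r) : ℝ) ^ 2 ≤ (m * (2 * n)) ^ 2 :=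
        pow_le_pow_left₀ (by positivity) h4 2
      have h6 : (#(P p r) : ℝ) ≤ e / (1008 * (m : ℝ) ^ 2) * (m * (2 * n)) ^ 2 :=
        h3.trans (mul_le_mul_of_nonneg_left h5 (by positivity))
      have h7 : e / (1008 * (m : ℝ) ^ 2) * ((m : ℝ) * (2 * n)) ^ 2 = e * n ^ 2 / 252 := by
        field_simp
        ring
      rw [h7] at h6
      have h8 : (n : ℝ) * #(popular (P p r) n) ≤ n * (e / 6 * n) := by nlinarith
      exact le_of_mul_le_mul_left h8 hnR
    have h9 : #((range 2).biUnion fun p => (range 3).biUnion fun r => popular (P p r) n) ≤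
        ∑ p ∈ range 2, ∑ r ∈ range 3, #(popular (P p r) n) :=
      Finset.card_biUnion_le.trans (Finset.sum_le_sum fun p _ => Finset.card_biUnion_le)
    have h10 : (#((range 2).biUnion fun p => (range 3).biUnion fun r => popular (P p r) n) : ℝ) ≤
        ∑ p ∈ range 2, ∑ r ∈ range 3, (#(popular (P p r) n) : ℝ) := by exact_mod_cast h9
    refine h10.trans ?_
    have h11 : ∑ p ∈ range 2, ∑ r ∈ range 3, (#(popular (P p r) n) : ℝ) ≤
        ∑ p ∈ range 2, ∑ r ∈ range 3, e / 6 * (n : ℝ) :=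
      Finset.sum_le_sum fun p hp => Finset.sum_le_sum fun r hr =>
        h1 p (Finset.mem_range.1 hp) r (Finset.mem_range.1 hr)
    refine h11.trans (le_of_eq ?_)
    simp only [Finset.sum_const, Finset.card_range, nsmul_eq_mul]
    push_cast
    ring
  · intro a b c d hab hbc hcd hwin hpar hmod
    obtain ⟨r, hr, hra, hrb, hrc, hrd⟩ := hmod
    by_contra hcon
    push Not at hcon
    have hp : a % 2 < 2 := Nat.mod_lt _ (by norm_num)
    have hnot : ∀ u, (u = b - a ∨ u = c - a ∨ u = d - a ∨ u = c - b ∨ u = d - b ∨ u = d - c) →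
        u ∉ D ∧ u ∉ popular (P (a % 2) r) n := by
      intro u hu
      refine ⟨(hcon u hu).1, fun h => (hcon u hu).2 ?_⟩
      exact Finset.mem_biUnion.2 ⟨a % 2, Finset.mem_range.2 hp,
        Finset.mem_biUnion.2 ⟨r, Finset.mem_range.2 hr, h⟩⟩
    have n1 := hnot (b - a) (Or.inl rfl)
    have n2 := hnot (c - a) (Or.inr (Or.inl rfl))
    have n3 := hnot (d - a) (Or.inr (Or.inr (Or.inl rfl)))
    have n4 := hnot (c - b) (Or.inr (Or.inr (Or.inr (Or.inl rfl))))
    have n5 := hnot (d - b) (Or.inr (Or.inr (Or.inr (Or.inr (Or.inl rfl)))))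
    have n6 := hnot (d - c) (Or.inr (Or.inr (Or.inr (Or.inr (Or.inr rfl)))))
    set Q := P (a % 2) r with hQ
    have hmem : ∀ u, (u = a ∨ u = b ∨ u = c ∨ u = d) → u % 2 = a % 2 → u % 3 ≠ r →
        ∀ s, 6 * s < n → u + 6 * s ∈ host x n (a % 2) r := by
      intro u hu h2 h3 s hs
      obtain ⟨i, hi1, hi2⟩ := hwin u hu
      exact mem_host.2 ⟨⟨i, by omega, by omega⟩, by omega, by omega⟩
    have hcover : ∀ s ∈ range ((n + 5) / 6),
        (a + 6 * s, b + 6 * s) ∈ Q ∨ (a + 6 * s, c + 6 * s) ∈ Q ∨ (a + 6 * s, d + 6 * s) ∈ Q ∨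
        (b + 6 * s, c + 6 * s) ∈ Q ∨ (b + 6 * s, d + 6 * s) ∈ Q ∨ (c + 6 * s, d + 6 * s) ∈ Q := by
      intro s hs
      have hs' := Finset.mem_range.1 hs
      have hs6 : 6 * s < n := by omega
      have e : ∀ u v : ℕ, v + 6 * s - (u + 6 * s) = v - u := fun u v => by omega
      refine (hP (a % 2) r hp hr).2 (a + 6 * s) (hmem a (Or.inl rfl) rfl hra s hs6)
        (b + 6 * s) (hmem b (Or.inr (Or.inl rfl)) hpar.1.symm hrb s hs6)
        (c + 6 * s) (hmem c (Or.inr (Or.inr (Or.inl rfl))) hpar.2.1.symm hrc s hs6)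
        (d + 6 * s) (hmem d (Or.inr (Or.inr (Or.inr rfl))) hpar.2.2.symm hrd s hs6) (by omega) (by omega) (by omega) ?_
      rw [e, e, e, e, e, e]
      exact ⟨n1.1, n2.1, n3.1, n4.1, n5.1, n6.1⟩
    have hsub : range ((n + 5) / 6) ⊆
        ((((((range ((n + 5) / 6)).filter fun s => (a + 6 * s, b + 6 * s) ∈ Q) ∪
        ((range ((n + 5) / 6)).filter fun s => (a + 6 * s, c + 6 * s) ∈ Q)) ∪
        ((range ((n + 5) / 6)).filter fun s => (a + 6 * s, d + 6 * s) ∈ Q)) ∪
        ((range ((n + 5) / 6)).filter fun s => (b + 6 * s, c + 6 * s) ∈ Q)) ∪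
        ((range ((n + 5) / 6)).filter fun s => (b + 6 * s, d + 6 * s) ∈ Q)) ∪
        ((range ((n + 5) / 6)).filter fun s => (c + 6 * s, d + 6 * s) ∈ Q) := by
      intro s hs
      rcases hcover s hs with h | h | h | h | h | h
      · exact Finset.mem_union_left _ (Finset.mem_union_left _ (Finset.mem_union_left _
          (Finset.mem_union_left _ (Finset.mem_union_left _ (Finset.mem_filter.2 ⟨hs, h⟩)))))
      · exact Finset.mem_union_left _ (Finset.mem_union_left _ (Finset.mem_union_left _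
          (Finset.mem_union_left _ (Finset.mem_union_right _ (Finset.mem_filter.2 ⟨hs, h⟩)))))
      · exact Finset.mem_union_left _ (Finset.mem_union_left _ (Finset.mem_union_left _
          (Finset.mem_union_right _ (Finset.mem_filter.2 ⟨hs, h⟩))))
      · exact Finset.mem_union_left _ (Finset.mem_union_left _
          (Finset.mem_union_right _ (Finset.mem_filter.2 ⟨hs, h⟩)))
      · exact Finset.mem_union_left _ (Finset.mem_union_right _ (Finset.mem_filter.2 ⟨hs, h⟩))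
      · exact Finset.mem_union_right _ (Finset.mem_filter.2 ⟨hs, h⟩)
    have hcard := Finset.card_le_card hsub
    have h1 := card_translates hn0 hab n1.2 ((n + 5) / 6)
    have h2 := card_translates hn0 (hab.trans hbc) n2.2 ((n + 5) / 6)
    have h3 := card_translates hn0 (hab.trans (hbc.trans hcd)) n3.2
      ((n + 5) / 6)
    have h4 := card_translates hn0 hbc n4.2 ((n + 5) / 6)
    have h5 := card_translates hn0 (hbc.trans hcd) n5.2 ((n + 5) / 6)
    have h6 := card_translates hn0 hcd n6.2 ((n + 5) / 6)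
    have hU := hcard.trans (Finset.card_union_le _ _)
    have hU2 := Finset.card_union_le
      ((((((range ((n + 5) / 6)).filter fun s => (a + 6 * s, b + 6 * s) ∈ Q) ∪
        ((range ((n + 5) / 6)).filter fun s => (a + 6 * s, c + 6 * s) ∈ Q)) ∪
        ((range ((n + 5) / 6)).filter fun s => (a + 6 * s, d + 6 * s) ∈ Q)) ∪
        ((range ((n + 5) / 6)).filter fun s => (b + 6 * s, c + 6 * s) ∈ Q)))
      ((range ((n + 5) / 6)).filter fun s => (b + 6 * s, d + 6 * s) ∈ Q)
    have hU3 := Finset.card_union_le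
      ((((((range ((n + 5) / 6)).filter fun s => (a + 6 * s, b + 6 * s) ∈ Q) ∪
        ((range ((n + 5) / 6)).filter fun s => (a + 6 * s, c + 6 * s) ∈ Q)) ∪
        ((range ((n + 5) / 6)).filter fun s => (a + 6 * s, d + 6 * s) ∈ Q))))
      ((range ((n + 5) / 6)).filter fun s => (b + 6 * s, c + 6 * s) ∈ Q)
    have hU4 := Finset.card_union_le
      ((((((range ((n + 5) / 6)).filter fun s => (a + 6 * s, b + 6 * s) ∈ Q) ∪
        ((range ((n + 5) / 6)).filter fun s => (a + 6 * s, c + 6 * s) ∈ Q)))))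
      ((range ((n + 5) / 6)).filter fun s => (a + 6 * s, d + 6 * s) ∈ Q)
    have hU5 := Finset.card_union_le
      ((range ((n + 5) / 6)).filter fun s => (a + 6 * s, b + 6 * s) ∈ Q)
      ((range ((n + 5) / 6)).filter fun s => (a + 6 * s, c + 6 * s) ∈ Q)
    rw [Finset.card_range] at hU
    omega

end Pool.Agent.AAM
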