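import Mathlib
import Pool.Agent.Lib_helper23.AAM.Arith

/-!
# Removal of a few differences in sets of small doubling

The averaging argument of `Arith.lean` needs only that the set has small doubling: translate a bad
four-element set by the elements of the set in one class modulo `6`.
-/

set_option autoImplicit false

namespace Pool.Agent.AAM

open Finset Pointwise

/-- Removal of few differences, for all sets of small doubling: if `A` is large and
`#(A + A) ≤ M * #A`, then every four elements of `A` of the same parity that miss a class modulo `3`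
have a difference in `D` or in a set `Z` of at most `e * #A` numbers. -/
def RemovalSD (D : Set ℕ) : Prop :=
  ∀ M e : ℝ, 0 < e → ∃ L : ℕ, ∀ A : Finset ℕ, L ≤ #A → (#(A + A) : ℝ) ≤ M * #A →
    ∃ Z : Finset ℕ, (#Z : ℝ) ≤ e * #A ∧
      ∀ a ∈ A, ∀ b ∈ A, ∀ c ∈ A, ∀ d ∈ A, a < b → b < c → c < d →
        (a % 2 = b % 2 ∧ a % 2 = c % 2 ∧ a % 2 = d % 2) →
        (∃ r < 3, a % 3 ≠ r ∧ b % 3 ≠ r ∧ c % 3 ≠ r ∧ d % 3 ≠ r) →
        ∃ u, (u = b - a ∨ u = c - a ∨ u = d - a ∨ u = c - b ∨ u = d - b ∨ u = d - c) ∧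
          (u ∈ D ∨ u ∈ Z)

/-- the differences of at least `y / 6` pairs of `P` -/
def pop (P : Finset (ℕ × ℕ)) (y : ℕ) : Finset ℕ :=
  (P.image fun q => q.2 - q.1).filter fun t => y ≤ 6 * #(P.filter fun q => q.2 - q.1 = t)

theorem card_pop (P : Finset (ℕ × ℕ)) (y : ℕ) : y * #(pop P y) ≤ 6 * #P := by
  have h1 : #P = ∑ t ∈ P.image (fun q => q.2 - q.1), #(P.filter fun q => q.2 - q.1 = t) :=
    Finset.card_eq_sum_card_image _ _
  have h2 : ∑ t ∈ pop P y, #(P.filter fun q => q.2 - q.1 = t) ≤ #P := by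
    rw [h1]
    exact Finset.sum_le_sum_of_subset (Finset.filter_subset _ _)
  calc y * #(pop P y) = ∑ t ∈ pop P y, y := by
        rw [Finset.sum_const, smul_eq_mul, mul_comm]
    _ ≤ ∑ t ∈ pop P y, 6 * #(P.filter fun q => q.2 - q.1 = t) :=
        Finset.sum_le_sum fun t ht => (Finset.mem_filter.1 ht).2
    _ = 6 * ∑ t ∈ pop P y, #(P.filter fun q => q.2 - q.1 = t) := by
        rw [Finset.mul_sum]
    _ ≤ 6 * #P := Nat.mul_le_mul_left _ h2

/-- few translates by elements of `Y` of a pair with an unpopular difference are in `P` -/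
theorem card_trans {P : Finset (ℕ × ℕ)} {Y : Finset ℕ} (hY : 0 < #Y) {u v : ℕ} (huv : u < v)
    (h : v - u ∉ pop P #Y) : 6 * #(Y.filter fun s => (u + s, v + s) ∈ P) < #Y := by
  have h1 : #(Y.filter fun s => (u + s, v + s) ∈ P) ≤ #(P.filter fun q => q.2 - q.1 = v - u) := by
    refine Finset.card_le_card_of_injOn (fun s => (u + s, v + s)) ?_ ?_
    · intro s hs
      have h2 := (Finset.mem_filter.1 (Finset.mem_coe.1 hs)).2
      refine Finset.mem_coe.2 (Finset.mem_filter.2 ⟨h2, ?_⟩)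
      show v + s - (u + s) = v - u
      omega
    · intro s _ s' _ hss
      have h3 : u + s = u + s' := congrArg Prod.fst hss
      omega
  by_cases h0 : v - u ∈ P.image fun q => q.2 - q.1
  · by_contra hcon
    push Not at hcon
    exact h (Finset.mem_filter.2 ⟨h0, hcon.trans (Nat.mul_le_mul_left _ h1)⟩)
  · have h4 : P.filter (fun q => q.2 - q.1 = v - u) = ∅ := by
      refine Finset.filter_eq_empty_iff.2 fun q hq hq2 => h0 ?_
      exact Finset.mem_image.2 ⟨q, hq, hq2⟩
    rw [h4, Finset.card_empty] at h1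
    have h5 : #(Y.filter fun s => (u + s, v + s) ∈ P) = 0 := Nat.le_zero.1 h1
    rw [h5]
    exact hY

/-- the most popular class modulo `6` of a set -/
theorem exists_class (A : Finset ℕ) : ∃ s < 6, #A ≤ 6 * #(A.filter fun a => a % 6 = s) := by
  by_contra hcon
  push Not at hcon
  have h1 : #A = ∑ s ∈ range 6, #(A.filter fun a => a % 6 = s) :=
    Finset.card_eq_sum_card_fiberwise fun a _ =>
      Finset.mem_coe.2 (Finset.mem_range.2 (Nat.mod_lt a (by norm_num)))
  have h2 : ∑ s ∈ range 6, 6 * #(A.filter fun a => a % 6 = s) < ∑ s ∈ range 6, #A :=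
    Finset.sum_lt_sum_of_nonempty ⟨0, by simp⟩ fun s hs => hcon s (Finset.mem_range.1 hs)
  rw [← Finset.mul_sum, ← h1, Finset.sum_const, Finset.card_range, smul_eq_mul] at h2
  exact lt_irrefl _ h2

theorem removalSD_of_pairs {D : Set ℕ} (hD : PairRemoval D) : RemovalSD D := by
  classical
  intro M₀ e he
  -- a positive constant
  obtain ⟨M, hM1, hM0⟩ : ∃ M : ℝ, 0 < M ∧ M₀ ≤ M := ⟨max M₀ 1, by positivity, le_max_left _ _⟩
  obtain ⟨N, hN⟩ := hD (e / (216 * M ^ 2)) (by positivity)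
  refine ⟨6 * N + 1, fun A hA hAA => ?_⟩
  have hA0 : 0 < #A := by omega
  have hAR : (0 : ℝ) < #A := by exact_mod_cast hA0
  have hAM : (#(A + A) : ℝ) ≤ M * #A := hAA.trans (mul_le_mul_of_nonneg_right hM0 hAR.le)
  obtain ⟨s, hs6, hs⟩ := exists_class A
  set Y := A.filter fun a => a % 6 = s with hYdef
  have hY0 : 0 < #Y := by omega
  have hYN : N ≤ #Y := by omega
  have hYR : (0 : ℝ) < #Y := by exact_mod_cast hY0
  set H : ℕ → ℕ → Finset ℕ := fun p r => (A + A).filter fun a => a % 2 = p ∧ a % 3 ≠ r with hH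
  have hP : ∀ p r : ℕ, ∃ P : Finset (ℕ × ℕ),
      (#P : ℝ) ≤ e / (216 * M ^ 2) * (#(H p r) : ℝ) ^ 2 ∧ (r < 3 → N ≤ #(H p r) →
      ∀ a ∈ H p r, ∀ b ∈ H p r, ∀ c ∈ H p r, ∀ d ∈ H p r, a < b → b < c → c < d →
        (b - a ∉ D ∧ c - a ∉ D ∧ d - a ∉ D ∧ c - b ∉ D ∧ d - b ∉ D ∧ d - c ∉ D) →
        (a, b) ∈ P ∨ (a, c) ∈ P ∨ (a, d) ∈ P ∨ (b, c) ∈ P ∨ (b, d) ∈ P ∨ (c, d) ∈ P) := by
    intro p r
    by_cases hpr : r < 3 ∧ N ≤ #(H p r)
    · obtain ⟨P, hP1, hP2⟩ := hN (H p r) hpr.2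
        ⟨p, fun a ha => (Finset.mem_filter.1 ha).2.1⟩
        ⟨r, hpr.1, fun a ha => (Finset.mem_filter.1 ha).2.2⟩
      exact ⟨P, hP1, fun _ _ => hP2⟩
    · refine ⟨∅, ?_, fun h1 h2 => absurd ⟨h1, h2⟩ hpr⟩
      rw [Finset.card_empty, Nat.cast_zero]
      positivity
  choose P hP1 hP2 using hP
  refine ⟨(range 2).biUnion fun p => (range 3).biUnion fun r => pop (P p r) #Y, ?_, ?_⟩
  · have h1 : ∀ p r : ℕ, (#(pop (P p r) #Y) : ℝ) ≤ e / 6 * #A := by
      intro p r
      have h2 : (#Y : ℝ) * #(pop (P p r) #Y) ≤ 6 * #(P p r) := by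
        exact_mod_cast card_pop (P p r) #Y
      have h4 : (#(H p r) : ℝ) ≤ M * #A := by
        refine le_trans ?_ hAM
        exact_mod_cast Finset.card_filter_le _ _
      have h5 : (#(H p r) : ℝ) ^ 2 ≤ (M * #A) ^ 2 := pow_le_pow_left₀ (by positivity) h4 2
      have h6 : (#(P p r) : ℝ) ≤ e / (216 * M ^ 2) * (M * #A) ^ 2 :=
        (hP1 p r).trans (mul_le_mul_of_nonneg_left h5 (by positivity))
      have h7 : e / (216 * M ^ 2) * (M * #A) ^ 2 = e * (#A : ℝ) ^ 2 / 216 := by
        field_simp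
      rw [h7] at h6
      have h8 : (#A : ℝ) ≤ 6 * #Y := by exact_mod_cast hs
      have h9 : (#A : ℝ) * #(pop (P p r) #Y) ≤ #A * (e / 6 * #A) := by
        have h10 : (0 : ℝ) ≤ #(pop (P p r) #Y) := Nat.cast_nonneg _
        nlinarith
      exact le_of_mul_le_mul_left h9 hAR
    have h9 : #((range 2).biUnion fun p => (range 3).biUnion fun r => pop (P p r) #Y) ≤
        ∑ p ∈ range 2, ∑ r ∈ range 3, #(pop (P p r) #Y) :=
      Finset.card_biUnion_le.trans (Finset.sum_le_sum fun p _ => Finset.card_biUnion_le)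
    have h10 : (#((range 2).biUnion fun p => (range 3).biUnion fun r => pop (P p r) #Y) : ℝ) ≤
        ∑ p ∈ range 2, ∑ r ∈ range 3, (#(pop (P p r) #Y) : ℝ) := by exact_mod_cast h9
    refine h10.trans ?_
    have h11 : ∑ p ∈ range 2, ∑ r ∈ range 3, (#(pop (P p r) #Y) : ℝ) ≤
        ∑ p ∈ range 2, ∑ r ∈ range 3, e / 6 * (#A : ℝ) :=
      Finset.sum_le_sum fun p _ => Finset.sum_le_sum fun r _ => h1 p r
    refine h11.trans (le_of_eq ?_)
    simp only [Finset.sum_const, Finset.card_range, nsmul_eq_mul]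
    push_cast
    ring
  · intro a ha b hb c hc d hd hab hbc hcd hpar hmod
    obtain ⟨r₀, hr₀, hra, hrb, hrc, hrd⟩ := hmod
    by_contra hcon
    push Not at hcon
    set p := (a + s) % 2 with hpdef
    set r := (r₀ + s) % 3 with hrdef
    have hp : p < 2 := Nat.mod_lt _ (by norm_num)
    have hr : r < 3 := Nat.mod_lt _ (by norm_num)
    have hnot : ∀ u, (u = b - a ∨ u = c - a ∨ u = d - a ∨ u = c - b ∨ u = d - b ∨ u = d - c) →
        u ∉ D ∧ u ∉ pop (P p r) #Y := by
      intro u hu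
      refine ⟨(hcon u hu).1, fun h => (hcon u hu).2 ?_⟩
      exact Finset.mem_biUnion.2 ⟨p, Finset.mem_range.2 hp,
        Finset.mem_biUnion.2 ⟨r, Finset.mem_range.2 hr, h⟩⟩
    have n1 := hnot (b - a) (Or.inl rfl)
    have n2 := hnot (c - a) (Or.inr (Or.inl rfl))
    have n3 := hnot (d - a) (Or.inr (Or.inr (Or.inl rfl)))
    have n4 := hnot (c - b) (Or.inr (Or.inr (Or.inr (Or.inl rfl))))
    have n5 := hnot (d - b) (Or.inr (Or.inr (Or.inr (Or.inr (Or.inl rfl)))))
    have n6 := hnot (d - c) (Or.inr (Or.inr (Or.inr (Or.inr (Or.inr rfl)))))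
    have hmem : ∀ u ∈ A, u % 2 = a % 2 → u % 3 ≠ r₀ → ∀ y ∈ Y, u + y ∈ H p r := by
      intro u hu h2 h3 y hy
      obtain ⟨hy1, hy2⟩ := Finset.mem_filter.1 hy
      have g1 : u + y ∈ A + A := Finset.add_mem_add hu hy1
      have g2 : (u + y) % 2 = p := by omega
      have g3 : (u + y) % 3 ≠ r := by omega
      exact Finset.mem_filter.2 ⟨g1, g2, g3⟩
    have hNH : N ≤ #(H p r) := by
      refine hYN.trans (Finset.card_le_card_of_injOn (fun y => a + y) ?_ ?_)
      · intro y hy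
        exact Finset.mem_coe.2 (hmem a ha rfl hra y (Finset.mem_coe.1 hy))
      · intro y _ y' _ hyy
        exact Nat.add_left_cancel hyy
    set Q := P p r with hQ
    have hcover : ∀ y ∈ Y,
        (a + y, b + y) ∈ Q ∨ (a + y, c + y) ∈ Q ∨ (a + y, d + y) ∈ Q ∨
        (b + y, c + y) ∈ Q ∨ (b + y, d + y) ∈ Q ∨ (c + y, d + y) ∈ Q := by
      intro y hy
      have e : ∀ u v : ℕ, v + y - (u + y) = v - u := fun u v => by omega
      refine hP2 p r hr hNH (a + y) (hmem a ha rfl hra y hy)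
        (b + y) (hmem b hb hpar.1.symm hrb y hy) (c + y) (hmem c hc hpar.2.1.symm hrc y hy)
        (d + y) (hmem d hd hpar.2.2.symm hrd y hy) (by omega) (by omega) (by omega) ?_
      rw [e, e, e, e, e, e]
      exact ⟨n1.1, n2.1, n3.1, n4.1, n5.1, n6.1⟩
    have hsub : Y ⊆ (((((Y.filter fun y => (a + y, b + y) ∈ Q) ∪
        (Y.filter fun y => (a + y, c + y) ∈ Q)) ∪ (Y.filter fun y => (a + y, d + y) ∈ Q)) ∪
        (Y.filter fun y => (b + y, c + y) ∈ Q)) ∪ (Y.filter fun y => (b + y, d + y) ∈ Q)) ∪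
        (Y.filter fun y => (c + y, d + y) ∈ Q) := by
      intro y hy
      rcases hcover y hy with h | h | h | h | h | h
      · exact Finset.mem_union_left _ (Finset.mem_union_left _ (Finset.mem_union_left _
          (Finset.mem_union_left _ (Finset.mem_union_left _ (Finset.mem_filter.2 ⟨hy, h⟩)))))
      · exact Finset.mem_union_left _ (Finset.mem_union_left _ (Finset.mem_union_left _
          (Finset.mem_union_left _ (Finset.mem_union_right _ (Finset.mem_filter.2 ⟨hy, h⟩)))))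
      · exact Finset.mem_union_left _ (Finset.mem_union_left _ (Finset.mem_union_left _
          (Finset.mem_union_right _ (Finset.mem_filter.2 ⟨hy, h⟩))))
      · exact Finset.mem_union_left _ (Finset.mem_union_left _
          (Finset.mem_union_right _ (Finset.mem_filter.2 ⟨hy, h⟩)))
      · exact Finset.mem_union_left _ (Finset.mem_union_right _ (Finset.mem_filter.2 ⟨hy, h⟩))
      · exact Finset.mem_union_right _ (Finset.mem_filter.2 ⟨hy, h⟩)
    have hcard := Finset.card_le_card hsub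
    have h1 := card_trans hY0 hab n1.2
    have h2 := card_trans hY0 (hab.trans hbc) n2.2
    have h3 := card_trans hY0 (hab.trans (hbc.trans hcd)) n3.2
    have h4 := card_trans hY0 hbc n4.2
    have h5 := card_trans hY0 (hbc.trans hcd) n5.2
    have h6 := card_trans hY0 hcd n6.2
    have hU := hcard.trans (Finset.card_union_le _ _)
    have hU2 := Finset.card_union_le ((((Y.filter fun y => (a + y, b + y) ∈ Q) ∪
        (Y.filter fun y => (a + y, c + y) ∈ Q)) ∪ (Y.filter fun y => (a + y, d + y) ∈ Q)) ∪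
        (Y.filter fun y => (b + y, c + y) ∈ Q)) (Y.filter fun y => (b + y, d + y) ∈ Q)
    have hU3 := Finset.card_union_le (((Y.filter fun y => (a + y, b + y) ∈ Q) ∪
        (Y.filter fun y => (a + y, c + y) ∈ Q)) ∪ (Y.filter fun y => (a + y, d + y) ∈ Q))
        (Y.filter fun y => (b + y, c + y) ∈ Q)
    have hU4 := Finset.card_union_le ((Y.filter fun y => (a + y, b + y) ∈ Q) ∪
        (Y.filter fun y => (a + y, c + y) ∈ Q)) (Y.filter fun y => (a + y, d + y) ∈ Q)
    have hU5 := Finset.card_union_le (Y.filter fun y => (a + y, b + y) ∈ Q)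
        (Y.filter fun y => (a + y, c + y) ∈ Q)
    omega

end Pool.Agent.AAM
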