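import Mathlib
import Pool.Agent.Lib_helper23.AAM.Doubling

/-!
# Consequences of removal in sets of small doubling

Unions of windows, and the first multiples of every even number.
-/

set_option autoImplicit false

namespace Pool.Agent.AAM

open Finset Pointwise

/-- Unions of `m` intervals of the same length have small doubling. -/
theorem removal_of_SD {D : Set ℕ} (hD : RemovalSD D) : Removal D := by
  classical
  intro m e he
  rcases Nat.eq_zero_or_pos m with rfl | hm
  · refine ⟨0, fun n _ x => ⟨∅, by simp; positivity, fun a b c d _ _ _ h => ?_⟩⟩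
    obtain ⟨i, -⟩ := h a (Or.inl rfl)
    exact i.elim0
  have hmR : (0 : ℝ) < m := by exact_mod_cast hm
  obtain ⟨L, hL⟩ := hD (2 * (m : ℝ) ^ 2) (e / m) (by positivity)
  refine ⟨L, fun n hn x => ?_⟩
  set A : Finset ℕ := univ.biUnion fun i => Ico (x i) (x i + n) with hA
  have hmem : ∀ a, a ∈ A ↔ ∃ i, x i ≤ a ∧ a < x i + n := by
    intro a
    rw [hA, Finset.mem_biUnion]
    exact ⟨fun ⟨i, _, hi⟩ => ⟨i, Finset.mem_Ico.1 hi⟩,
      fun ⟨i, hi⟩ => ⟨i, Finset.mem_univ _, Finset.mem_Ico.2 hi⟩⟩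
  have hlow : n ≤ #A := by
    have h1 : Ico (x ⟨0, hm⟩) (x ⟨0, hm⟩ + n) ⊆ A := fun a ha =>
      (hmem a).2 ⟨_, Finset.mem_Ico.1 ha⟩
    have h2 := Finset.card_le_card h1
    rwa [Nat.card_Ico, Nat.add_sub_cancel_left] at h2
  have hup : #A ≤ m * n := by
    refine Finset.card_biUnion_le.trans ?_
    refine (Finset.sum_le_sum (g := fun _ => n) fun i _ => ?_).trans ?_
    · rw [Nat.card_Ico]
      omega
    · rw [Finset.sum_const, Finset.card_univ, Fintype.card_fin, smul_eq_mul]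
  have hsum : #(A + A) ≤ m * (m * (2 * n)) := by
    have h1 : A + A ⊆ univ.biUnion fun i => univ.biUnion fun j =>
        Ico (x i + x j) (x i + x j + 2 * n) := by
      intro a ha
      obtain ⟨b, hb, c, hc, rfl⟩ := Finset.mem_add.1 ha
      obtain ⟨i, hi1, hi2⟩ := (hmem b).1 hb
      obtain ⟨j, hj1, hj2⟩ := (hmem c).1 hc
      refine Finset.mem_biUnion.2 ⟨i, Finset.mem_univ _, Finset.mem_biUnion.2 ⟨j,
        Finset.mem_univ _, Finset.mem_Ico.2 ⟨by omega, by omega⟩⟩⟩
    refine (Finset.card_le_card h1).trans (Finset.card_biUnion_le.trans ?_)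
    refine (Finset.sum_le_sum (g := fun _ => m * (2 * n)) fun i _ => ?_).trans ?_
    · refine Finset.card_biUnion_le.trans ?_
      refine (Finset.sum_le_sum (g := fun _ => 2 * n) fun j _ => ?_).trans ?_
      · rw [Nat.card_Ico]
        omega
      · rw [Finset.sum_const, Finset.card_univ, Fintype.card_fin, smul_eq_mul]
    · rw [Finset.sum_const, Finset.card_univ, Fintype.card_fin, smul_eq_mul]
  have hsumR : (#(A + A) : ℝ) ≤ 2 * (m : ℝ) ^ 2 * #A := by
    have h1 : (#(A + A) : ℝ) ≤ m * (m * (2 * n)) := by exact_mod_cast hsum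
    have h2 : (n : ℝ) ≤ #A := by exact_mod_cast hlow
    have h3 : (m : ℝ) * (m * (2 * n)) = 2 * (m : ℝ) ^ 2 * n := by ring
    rw [h3] at h1
    exact h1.trans (mul_le_mul_of_nonneg_left h2 (by positivity))
  obtain ⟨Z, hZ, hZ2⟩ := hL A (le_trans hn hlow) hsumR
  refine ⟨Z, ?_, ?_⟩
  · have h1 : (#A : ℝ) ≤ m * n := by exact_mod_cast hup
    have h2 : e / m * #A ≤ e / m * (m * n) := mul_le_mul_of_nonneg_left h1 (by positivity)
    refine hZ.trans (h2.trans (le_of_eq ?_))
    field_simp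
  · intro a b c d hab hbc hcd hwin hpar hmod
    exact hZ2 a ((hmem a).2 (hwin a (Or.inl rfl))) b ((hmem b).2 (hwin b (Or.inr (Or.inl rfl))))
      c ((hmem c).2 (hwin c (Or.inr (Or.inr (Or.inl rfl)))))
      d ((hmem d).2 (hwin d (Or.inr (Or.inr (Or.inr rfl))))) hab hbc hcd hpar hmod

/-- adding `Z` to `D` adds at most `#Z` multiples -/
theorem numMult_union {D : Set ℕ} (Z : Finset ℕ) (K : ℕ) {t : ℕ} (ht : 0 < t) :
    numMult (D ∪ ↑Z) K t ≤ numMult D K t + #Z := by
  classical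
  unfold numMult
  have h1 : ((Icc 1 K).filter fun k => k * t ∈ (D ∪ ↑Z : Set ℕ)) ⊆
      ((Icc 1 K).filter fun k => k * t ∈ D) ∪ ((Icc 1 K).filter fun k => k * t ∈ Z) := by
    intro k hk
    obtain ⟨hk1, hk2⟩ := Finset.mem_filter.1 hk
    rcases hk2 with hk2 | hk2
    · exact Finset.mem_union_left _ (Finset.mem_filter.2 ⟨hk1, hk2⟩)
    · exact Finset.mem_union_right _ (Finset.mem_filter.2 ⟨hk1, Finset.mem_coe.1 hk2⟩)
  have h2 : #((Icc 1 K).filter fun k => k * t ∈ Z) ≤ #Z := by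
    refine Finset.card_le_card_of_injOn (fun k => k * t) ?_ ?_
    · intro k hk
      exact Finset.mem_coe.2 (Finset.mem_filter.1 (Finset.mem_coe.1 hk)).2
    · intro k _ k' _ hkk
      exact Nat.eq_of_mul_eq_mul_right ht hkk
  have h3 := (Finset.card_le_card h1).trans (Finset.card_union_le _ _)
  refine le_trans (le_of_eq ?_) (h3.trans (le_trans (Nat.add_le_add_left h2 _) (le_of_eq ?_)))
  · congr 1
    ext k
    simp only [Finset.mem_filter]
  · congr 1

/-- For every even `t > 0` and every large `K`, almost a third of `t, 2t, ..., Kt` are in `D`. -/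
theorem every_even {D : Set ℕ} (hD : RemovalSD D) (e : ℝ) (he : 0 < e) :
    ∃ K₀ : ℕ, ∀ t : ℕ, 0 < t → Even t → ∀ K ≥ K₀, (1 / 3 - e) * K ≤ numMult D K t := by
  classical
  obtain ⟨L, hL⟩ := hD 2 (e / 4) (by positivity)
  obtain ⟨k₁, hk₁⟩ := exists_nat_gt (8 / (3 * e))
  refine ⟨max L (k₁ + 1), fun t ht hev K hK => ?_⟩
  have hKL : L ≤ K := le_trans (le_max_left _ _) hK
  have hKk : k₁ + 1 ≤ K := le_trans (le_max_right _ _) hK
  set A : Finset ℕ := (range (K + 1)).image fun k => k * t with hA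
  have hinj : Function.Injective fun k : ℕ => k * t := fun a b h =>
    Nat.eq_of_mul_eq_mul_right ht h
  have hcard : #A = K + 1 := by
    rw [hA, Finset.card_image_of_injective _ hinj, Finset.card_range]
  have hsum : #(A + A) ≤ 2 * K + 1 := by
    have h1 : A + A ⊆ (range (2 * K + 1)).image fun k => k * t := by
      intro a ha
      obtain ⟨b, hb, c, hc, rfl⟩ := Finset.mem_add.1 ha
      obtain ⟨i, hi, rfl⟩ := Finset.mem_image.1 hb
      obtain ⟨j, hj, rfl⟩ := Finset.mem_image.1 hc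
      rw [Finset.mem_range] at hi hj
      exact Finset.mem_image.2 ⟨i + j, Finset.mem_range.2 (by omega), Nat.add_mul i j t⟩
    have h2 := (Finset.card_le_card h1).trans Finset.card_image_le
    rwa [Finset.card_range] at h2
  obtain ⟨Z, hZ, hZ2⟩ := hL A (by omega) (by
    rw [hcard]
    have h1 : (#(A + A) : ℝ) ≤ 2 * K + 1 := by exact_mod_cast hsum
    push_cast
    linarith)
  have hgood : GoodMult (D ∪ ↑Z) K t := by
    refine good_of (Z := ∅) ht hev (fun k _ => by simp) ?_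
    intro x y z hx hxy hyz hzK hr
    have hin : ∀ k ≤ K, k * t ∈ A := fun k hk =>
      Finset.mem_image.2 ⟨k, Finset.mem_range.2 (by omega), rfl⟩
    have h0 : 0 ∈ A := by
      have := hin 0 (Nat.zero_le K)
      rwa [Nat.zero_mul] at this
    have he' : ∀ k : ℕ, 0 % 2 = (k * t) % 2 := fun k => by
      obtain ⟨s, rfl⟩ := hev
      rw [← Nat.two_mul, Nat.mul_left_comm, Nat.mul_mod_right]
    obtain ⟨u, hu, hu2⟩ := hZ2 0 h0 (x * t) (hin x (by omega)) (y * t) (hin y (by omega))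
      (z * t) (hin z hzK) (Nat.mul_pos hx ht) (Nat.mul_lt_mul_of_pos_right hxy ht)
      (Nat.mul_lt_mul_of_pos_right hyz ht) ⟨he' _, he' _, he' _⟩ hr
    refine ⟨u, hu, Or.inl ?_⟩
    rcases hu2 with h | h
    · exact Or.inl h
    · exact Or.inr (Finset.mem_coe.2 h)
  have h1 : (K - 2) / 3 ≤ numMult D K t + #Z := hgood.1.trans (numMult_union Z K ht)
  have h2 : K ≤ 3 * (numMult D K t + #Z) + 4 := by omega
  have h3 : (K : ℝ) ≤ 3 * (numMult D K t + #Z) + 4 := by exact_mod_cast h2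
  have h4 : (#Z : ℝ) ≤ e / 4 * (K + 1) := by
    rw [hcard] at hZ
    push_cast at hZ
    exact hZ
  have h5 : (k₁ : ℝ) + 1 ≤ K := by exact_mod_cast hKk
  have h6 : 8 / (3 * e) ≤ K := by linarith
  have h7 : 8 ≤ 3 * e * K := by
    rw [div_le_iff₀ (by positivity)] at h6
    linarith
  have h8 : (1 : ℝ) ≤ K := by
    have : (0 : ℝ) ≤ k₁ := Nat.cast_nonneg _
    linarith
  nlinarith

end Pool.Agent.AAM
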